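import Mathlib

open MeasureTheory Set

namespace Pool.Agent.Results.MP_5b0acc_co.TwistedDisproof

noncomputable section

/-- Euclidean 3-space. -/
abbrev E3 : Type := EuclideanSpace ℝ (Fin 3)

/-- A curve: the image of a continuous injective map from a (nondegenerate) interval of `ℝ`. -/
def IsCurve (γ : Set E3) : Prop :=
  ∃ (I : Set ℝ) (f : ℝ → E3),
    I.OrdConnected ∧ I.Nontrivial ∧ ContinuousOn f I ∧ InjOn f I ∧ γ = f '' I

/-- A set is twisted if no four distinct points of it lie in a common plane. -/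
def IsTwisted (γ : Set E3) : Prop :=
  ∀ p : Fin 4 → E3, Function.Injective p → (∀ i, p i ∈ γ) → ¬ Coplanar ℝ (Set.range p)

/-- The Voronoi region of `x` with respect to `S`: the points strictly nearer to `x` than to
every other point of `S`. -/
def voronoi (S : Set E3) (x : E3) : Set E3 :=
  {y | ∀ z ∈ S, z ≠ x → dist y x < dist y z}

/-- The parametrisation of (an affine image of) the twisted cubic. -/
def c (t : ℝ) : E3 := !₂[t - t ^ 3, t ^ 2, t ^ 3]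

lemma continuous_c : Continuous c := by
  unfold c
  fun_prop

lemma c_inj : Function.Injective c := by
  intro s t h
  have h0 : (c s) 0 = (c t) 0 := by rw [h]
  have h2 : (c s) 2 = (c t) 2 := by rw [h]
  simp [c] at h0 h2
  linarith

lemma dist_sq (y : E3) (t : ℝ) :
    dist y (c t) ^ 2 = (y 0 - (t - t ^ 3)) ^ 2 + (y 1 - t ^ 2) ^ 2 + (y 2 - t ^ 3) ^ 2 := by
  rw [EuclideanSpace.dist_eq, Real.sq_sqrt (by positivity), Fin.sum_univ_three]
  simp only [Real.dist_eq, sq_abs]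
  simp only [c, PiLp.toLp_apply, Matrix.cons_val_zero, Matrix.cons_val_one, Matrix.cons_val]

lemma twisted_of_image (I : Set ℝ) : IsTwisted (c '' I) := by
  intro p hp hmem hcop
  choose t ht hct using hmem
  have htinj : Function.Injective t := by
    intro i j hij
    apply hp
    rw [← hct i, ← hct j, hij]
  have hp' : p = fun i => c (t i) := by
    funext i; exact (hct i).symm
  have hai : AffineIndependent ℝ p := by
    rw [affineIndependent_iff]
    intro s w hw hs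
    -- extend the weights by zero to all of `Fin 4`
    set v : Fin 4 → ℝ := fun i => if i ∈ s then w i else 0 with hv
    have hsum : ∀ g : Fin 4 → ℝ, (∑ i, v i * g i) = ∑ i ∈ s, w i * g i := by
      intro g
      simp [hv, ite_mul, Finset.sum_ite_mem]
    have hw0 : ∑ i ∈ s, w i * 1 = 0 := by simpa using hw
    have hcoord : ∀ k : Fin 3, ∑ i ∈ s, w i * (p i) k = 0 := by
      intro k
      have := congrArg (fun z : E3 => z k) hs
      simpa using this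
    have e0 : ∑ i ∈ s, w i * (t i - t i ^ 3) = 0 := by
      have := hcoord 0
      rw [hp'] at this
      simpa [c] using this
    have e1 : ∑ i ∈ s, w i * (t i ^ 2) = 0 := by
      have := hcoord 1
      rw [hp'] at this
      simpa [c] using this
    have e2 : ∑ i ∈ s, w i * (t i ^ 3) = 0 := by
      have := hcoord 2
      rw [hp'] at this
      simpa [c] using this
    have e3 : ∑ i ∈ s, w i * t i = 0 := by
      have : ∑ i ∈ s, w i * t i = ∑ i ∈ s, w i * (t i - t i ^ 3) + ∑ i ∈ s, w i * (t i ^ 3) := by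
        rw [← Finset.sum_add_distrib]
        apply Finset.sum_congr rfl
        intro i _
        ring
      rw [this, e0, e2, add_zero]
    have hv0 : v = 0 := by
      apply Matrix.eq_zero_of_forall_pow_sum_mul_pow_eq_zero htinj
      intro i
      rw [hsum]
      fin_cases i
      · simpa using hw
      · simpa using e3
      · simpa using e1
      · simpa using e2
    intro i hi
    have := congrFun hv0 i
    simpa [hv, hi] using this
  have h3 := (affineIndependent_iff_finrank_vectorSpan_eq ℝ p (n := 3) (by simp)).1 hai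
  rw [coplanar_iff_finrank_le_two] at hcop
  omega

lemma sq_small {x : ℝ} (h1 : -(1 / 6) ≤ x) (h2 : x ≤ 1 / 6) : x ^ 2 ≤ 1 / 36 := by
  nlinarith

lemma small_sum {t0 t1 t2 t3 t4 : ℝ} (a0 : -(1 / 6) ≤ t0) (b0 : t0 ≤ 1 / 6)
    (a1 : -(1 / 6) ≤ t1) (b1 : t1 ≤ 1 / 6) (a2 : -(1 / 6) ≤ t2) (b2 : t2 ≤ 1 / 6)
    (a3 : -(1 / 6) ≤ t3) (b3 : t3 ≤ 1 / 6) (a4 : -(1 / 6) ≤ t4) (b4 : t4 ≤ 1 / 6) :
    (t0 + t1 + t2 + t3 + t4) ^ 2 + (t0 ^ 2 + t1 ^ 2 + t2 ^ 2 + t3 ^ 2 + t4 ^ 2) < 1 := by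
  have c0 := sq_small a0 b0
  have c1 := sq_small a1 b1
  have c2 := sq_small a2 b2
  have c3 := sq_small a3 b3
  have c4 := sq_small a4 b4
  have c5 : (t0 + t1 + t2 + t3 + t4) ^ 2 ≤ 25 / 36 := by
    have h1 : -(5 / 6) ≤ t0 + t1 + t2 + t3 + t4 := by linarith
    have h2 : t0 + t1 + t2 + t3 + t4 ≤ 5 / 6 := by linarith
    generalize t0 + t1 + t2 + t3 + t4 = x at h1 h2 ⊢
    clear a0 b0 a1 b1 a2 b2 a3 b3 a4 b4 c0 c1 c2 c3 c4
    nlinarith
  linarith

/-- The key inequality: for five ordered parameters in `[-1/6, 1/6]` no point `y` can be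
equidistant from the second and the fourth point and at least as far from the others. -/
lemma key (a : Fin 5 → ℝ) (hmono : StrictMono a) (hlo : ∀ i, -(1 / 6) ≤ a i)
    (hhi : ∀ i, a i ≤ 1 / 6) (y : E3)
    (h1 : ∀ i, dist y (c (a 1)) ≤ dist y (c (a i)))
    (h3 : ∀ i, dist y (c (a 3)) ≤ dist y (c (a i))) : False := by
  have heq : dist y (c (a 1)) = dist y (c (a 3)) := le_antisymm (h1 3) (h3 1)
  have hsq : ∀ i, dist y (c (a 1)) ^ 2 ≤ dist y (c (a i)) ^ 2 := fun i =>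
    pow_le_pow_left₀ dist_nonneg (h1 i) 2
  have heq2 : dist y (c (a 1)) ^ 2 = dist y (c (a 3)) ^ 2 := by rw [heq]
  have g0 := hsq 0
  have g2 := hsq 2
  have g4 := hsq 4
  rw [dist_sq, dist_sq] at g0 g2 g4 heq2
  have m01 : a 0 < a 1 := hmono (by decide)
  have m12 : a 1 < a 2 := hmono (by decide)
  have m23 : a 2 < a 3 := hmono (by decide)
  have m34 : a 3 < a 4 := hmono (by decide)
  have l0 := hlo 0
  have u4 := hhi 4
  generalize a 0 = t0 at *
  generalize a 1 = t1 at *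
  generalize a 2 = t2 at *
  generalize a 3 = t3 at *
  generalize a 4 = t4 at *
  generalize y 0 = y0 at *
  generalize y 1 = y1 at *
  generalize y 2 = y2 at *
  -- the positive weights (Vandermonde products)
  have d10 : 0 < t1 - t0 := by linarith
  have d20 : 0 < t2 - t0 := by linarith
  have d30 : 0 < t3 - t0 := by linarith
  have d40 : 0 < t4 - t0 := by linarith
  have d21 : 0 < t2 - t1 := by linarith
  have d31 : 0 < t3 - t1 := by linarith
  have d41 : 0 < t4 - t1 := by linarith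
  have d32 : 0 < t3 - t2 := by linarith
  have d42 : 0 < t4 - t2 := by linarith
  have d43 : 0 < t4 - t3 := by linarith
  set w0 := (t2 - t1) * (t3 - t1) * (t4 - t1) * (t3 - t2) * (t4 - t2) * (t4 - t3) with hw0
  set w1 := (t2 - t0) * (t3 - t0) * (t4 - t0) * (t3 - t2) * (t4 - t2) * (t4 - t3) with hw1
  set w2 := (t1 - t0) * (t3 - t0) * (t4 - t0) * (t3 - t1) * (t4 - t1) * (t4 - t3) with hw2
  set w3 := (t1 - t0) * (t2 - t0) * (t4 - t0) * (t2 - t1) * (t4 - t1) * (t4 - t2) with hw3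
  set w4 := (t1 - t0) * (t2 - t0) * (t3 - t0) * (t2 - t1) * (t3 - t1) * (t3 - t2) with hw4
  set W := (t1 - t0) * (t2 - t0) * (t3 - t0) * (t4 - t0) * (t2 - t1) * (t3 - t1) * (t4 - t1) *
    (t3 - t2) * (t4 - t2) * (t4 - t3) with hW
  have pw0 : 0 < w0 := by positivity
  have pw2 : 0 < w2 := by positivity
  have pw4 : 0 < w4 := by positivity
  have pW : 0 < W := by positivity
  have s0 : w0 - w1 + w2 - w3 + w4 = 0 := by rw [hw0, hw1, hw2, hw3, hw4]; ring
  have s1 : w0 * t0 - w1 * t1 + w2 * t2 - w3 * t3 + w4 * t4 = 0 := by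
    rw [hw0, hw1, hw2, hw3, hw4]; ring
  have s2 : w0 * t0 ^ 2 - w1 * t1 ^ 2 + w2 * t2 ^ 2 - w3 * t3 ^ 2 + w4 * t4 ^ 2 = 0 := by
    rw [hw0, hw1, hw2, hw3, hw4]; ring
  have s3 : w0 * t0 ^ 3 - w1 * t1 ^ 3 + w2 * t2 ^ 3 - w3 * t3 ^ 3 + w4 * t4 ^ 3 = 0 := by
    rw [hw0, hw1, hw2, hw3, hw4]; ring
  have s4 : w0 * t0 ^ 4 - w1 * t1 ^ 4 + w2 * t2 ^ 4 - w3 * t3 ^ 4 + w4 * t4 ^ 4 = W := by
    rw [hw0, hw1, hw2, hw3, hw4, hW]; ring
  clear_value w0 w1 w2 w3 w4 W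
  -- higher moments from the recurrence given by `∏ (t - tᵢ) = 0`
  obtain ⟨e1, he1⟩ : ∃ e, e = t0 + t1 + t2 + t3 + t4 := ⟨_, rfl⟩
  obtain ⟨e2, he2⟩ : ∃ e, e = t0 * t1 + t0 * t2 + t0 * t3 + t0 * t4 + t1 * t2 + t1 * t3 + t1 * t4
    + t2 * t3 + t2 * t4 + t3 * t4 := ⟨_, rfl⟩
  obtain ⟨e3, he3⟩ : ∃ e, e = t0 * t1 * t2 + t0 * t1 * t3 + t0 * t1 * t4 + t0 * t2 * t3
    + t0 * t2 * t4 + t0 * t3 * t4 + t1 * t2 * t3 + t1 * t2 * t4 + t1 * t3 * t4
    + t2 * t3 * t4 := ⟨_, rfl⟩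
  obtain ⟨e4, he4⟩ : ∃ e, e = t0 * t1 * t2 * t3 + t0 * t1 * t2 * t4 + t0 * t1 * t3 * t4
    + t0 * t2 * t3 * t4 + t1 * t2 * t3 * t4 := ⟨_, rfl⟩
  obtain ⟨e5, he5⟩ : ∃ e, e = t0 * t1 * t2 * t3 * t4 := ⟨_, rfl⟩
  have r0 : t0 ^ 5 = e1 * t0 ^ 4 - e2 * t0 ^ 3 + e3 * t0 ^ 2 - e4 * t0 + e5 := by
    rw [he1, he2, he3, he4, he5]; ring
  have r1 : t1 ^ 5 = e1 * t1 ^ 4 - e2 * t1 ^ 3 + e3 * t1 ^ 2 - e4 * t1 + e5 := by
    rw [he1, he2, he3, he4, he5]; ring
  have r2 : t2 ^ 5 = e1 * t2 ^ 4 - e2 * t2 ^ 3 + e3 * t2 ^ 2 - e4 * t2 + e5 := by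
    rw [he1, he2, he3, he4, he5]; ring
  have r3 : t3 ^ 5 = e1 * t3 ^ 4 - e2 * t3 ^ 3 + e3 * t3 ^ 2 - e4 * t3 + e5 := by
    rw [he1, he2, he3, he4, he5]; ring
  have r4 : t4 ^ 5 = e1 * t4 ^ 4 - e2 * t4 ^ 3 + e3 * t4 ^ 2 - e4 * t4 + e5 := by
    rw [he1, he2, he3, he4, he5]; ring
  have s5 : w0 * t0 ^ 5 - w1 * t1 ^ 5 + w2 * t2 ^ 5 - w3 * t3 ^ 5 + w4 * t4 ^ 5 = e1 * W := by
    linear_combination w0 * r0 - w1 * r1 + w2 * r2 - w3 * r3 + w4 * r4 + e1 * s4 - e2 * s3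
      + e3 * s2 - e4 * s1 + e5 * s0
  have s6' : w0 * t0 ^ 6 - w1 * t1 ^ 6 + w2 * t2 ^ 6 - w3 * t3 ^ 6 + w4 * t4 ^ 6 =
      (e1 ^ 2 - e2) * W := by
    linear_combination w0 * t0 * r0 - w1 * t1 * r1 + w2 * t2 * r2 - w3 * t3 * r3
      + w4 * t4 * r4 + e1 * s5 - e2 * s4 + e3 * s3 - e4 * s2 + e5 * s1
  have s6 : 2 * (w0 * t0 ^ 6 - w1 * t1 ^ 6 + w2 * t2 ^ 6 - w3 * t3 ^ 6 + w4 * t4 ^ 6) =
      W * ((t0 + t1 + t2 + t3 + t4) ^ 2 + (t0 ^ 2 + t1 ^ 2 + t2 ^ 2 + t3 ^ 2 + t4 ^ 2)) := by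
    rw [s6', he1, he2]; ring
  have small : (t0 + t1 + t2 + t3 + t4) ^ 2 + (t0 ^ 2 + t1 ^ 2 + t2 ^ 2 + t3 ^ 2 + t4 ^ 2) < 1 :=
    small_sum (by linarith) (by linarith) (by linarith) (by linarith) (by linarith)
      (by linarith) (by linarith) (by linarith) (by linarith) (by linarith)
  -- the squared distances as polynomials
  set G : ℝ → ℝ := fun t => (y0 - (t - t ^ 3)) ^ 2 + (y1 - t ^ 2) ^ 2 + (y2 - t ^ 3) ^ 2 with hG
  have hcomb : w0 * G t0 - w1 * G t1 + w2 * G t2 - w3 * G t3 + w4 * G t4 =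
      W * ((t0 + t1 + t2 + t3 + t4) ^ 2 + (t0 ^ 2 + t1 ^ 2 + t2 ^ 2 + t3 ^ 2 + t4 ^ 2) - 1) := by
    have : w0 * G t0 - w1 * G t1 + w2 * G t2 - w3 * G t3 + w4 * G t4 =
        2 * (w0 * t0 ^ 6 - w1 * t1 ^ 6 + w2 * t2 ^ 6 - w3 * t3 ^ 6 + w4 * t4 ^ 6)
        - (w0 * t0 ^ 4 - w1 * t1 ^ 4 + w2 * t2 ^ 4 - w3 * t3 ^ 4 + w4 * t4 ^ 4)
        + (2 * y0 - 2 * y2) *
          (w0 * t0 ^ 3 - w1 * t1 ^ 3 + w2 * t2 ^ 3 - w3 * t3 ^ 3 + w4 * t4 ^ 3)
        + (1 - 2 * y1) * (w0 * t0 ^ 2 - w1 * t1 ^ 2 + w2 * t2 ^ 2 - w3 * t3 ^ 2 + w4 * t4 ^ 2)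
        - 2 * y0 * (w0 * t0 - w1 * t1 + w2 * t2 - w3 * t3 + w4 * t4)
        + (y0 ^ 2 + y1 ^ 2 + y2 ^ 2) * (w0 - w1 + w2 - w3 + w4) := by
      simp only [hG]; ring
    rw [this, s0, s1, s2, s3, s4, s6]; ring
  have e13 : G t1 = G t3 := heq2
  have f0 : 0 ≤ G t0 - G t1 := by simp only [hG]; linarith
  have f2 : 0 ≤ G t2 - G t1 := by simp only [hG]; linarith
  have f4 : 0 ≤ G t4 - G t1 := by simp only [hG]; linarith
  have hneg : W * ((t0 + t1 + t2 + t3 + t4) ^ 2 + (t0 ^ 2 + t1 ^ 2 + t2 ^ 2 + t3 ^ 2 + t4 ^ 2) - 1)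
      < 0 := mul_neg_of_pos_of_neg pW (by linarith)
  have hpos : 0 ≤ w0 * (G t0 - G t1) + w2 * (G t2 - G t1) + w4 * (G t4 - G t1) := by positivity
  have hid : w0 * (G t0 - G t1) + w2 * (G t2 - G t1) + w4 * (G t4 - G t1) =
      (w0 * G t0 - w1 * G t1 + w2 * G t2 - w3 * G t3 + w4 * G t4)
        - G t1 * (w0 - w1 + w2 - w3 + w4) := by
    rw [← e13]; ring
  rw [hid, hcomb, s0] at hpos
  linarith

lemma closure_voronoi_subset (S : Set E3) (x : E3) :
    closure (voronoi S x) ⊆ {y | ∀ z ∈ S, dist y x ≤ dist y z} := by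
  have hclosed : IsClosed {y : E3 | ∀ z ∈ S, dist y x ≤ dist y z} := by
    have : {y : E3 | ∀ z ∈ S, dist y x ≤ dist y z} = ⋂ z ∈ S, {y : E3 | dist y x ≤ dist y z} := by
      ext y; simp
    rw [this]
    refine isClosed_biInter fun z _ => isClosed_le (by fun_prop) (by fun_prop)
  refine closure_minimal ?_ hclosed
  intro y hy z hz
  by_cases h : z = x
  · rw [h]
  · exact (hy z hz h).le

/-- **Disproof of the Dewdney–Vranch question.** There is a twisted curve `γ` (an arc of a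
twisted cubic) such that for every `S ⊆ γ` with at least five points (in particular for every
infinite `S ⊆ γ`) two of the closed Voronoi regions of `S` are disjoint; in particular their
intersection has zero area. -/
theorem result :
    ∃ γ : Set E3, IsCurve γ ∧ IsTwisted γ ∧
      ∀ S : Set E3, S ⊆ γ → (S.Infinite ∨ 5 ≤ S.encard) →
        ∃ x ∈ S, ∃ x' ∈ S, x ≠ x' ∧
          closure (voronoi S x) ∩ closure (voronoi S x') = ∅ ∧
          μH[2] (closure (voronoi S x) ∩ closure (voronoi S x')) = 0 := by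
  refine ⟨c '' Icc (-(1 / 6)) (1 / 6), ⟨Icc (-(1 / 6)) (1 / 6), c, ordConnected_Icc, ?_,
    continuous_c.continuousOn, c_inj.injOn, rfl⟩, twisted_of_image _, ?_⟩
  · exact ⟨0, by norm_num, 1 / 6, by norm_num, by norm_num⟩
  intro S hS hcard
  have hcard5 : 5 ≤ S.encard := by
    rcases hcard with h | h
    · rw [h.encard_eq]; exact le_top
    · exact h
  set T : Set ℝ := Icc (-(1 / 6)) (1 / 6) ∩ c ⁻¹' S with hT
  have hTS : c '' T = S := by
    ext x
    constructor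
    · rintro ⟨t, ⟨_, ht⟩, rfl⟩; exact ht
    · intro hx
      obtain ⟨t, ht, rfl⟩ := hS hx
      exact ⟨t, ⟨ht, hx⟩, rfl⟩
  have hTcard : 5 ≤ T.encard := by
    rw [← hTS, c_inj.encard_image] at hcard5
    exact hcard5
  obtain ⟨F, hFT, hF⟩ := Set.exists_subset_encard_eq hTcard
  have hFfin : F.Finite := Set.finite_of_encard_eq_coe (k := 5) (by simpa using hF)
  have hFcard : hFfin.toFinset.card = 5 := by
    have := hFfin.encard_eq_coe_toFinset_card
    rw [hF] at this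
    exact_mod_cast this.symm
  set a := hFfin.toFinset.orderEmbOfFin hFcard with ha
  have haF : ∀ i, a i ∈ T := by
    intro i
    apply hFT
    have := hFfin.toFinset.orderEmbOfFin_mem hFcard i
    exact hFfin.mem_toFinset.1 this
  have hmem : ∀ i, c (a i) ∈ S := fun i => (haF i).2
  have hempty : closure (voronoi S (c (a 1))) ∩ closure (voronoi S (c (a 3))) = ∅ := by
    rw [Set.eq_empty_iff_forall_notMem]
    rintro y ⟨hy1, hy3⟩
    have k1 := closure_voronoi_subset S _ hy1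
    have k3 := closure_voronoi_subset S _ hy3
    exact key (fun i => a i) a.strictMono (fun i => (haF i).1.1) (fun i => (haF i).1.2) y
      (fun i => k1 _ (hmem i)) (fun i => k3 _ (hmem i))
  refine ⟨c (a 1), hmem 1, c (a 3), hmem 3, ?_, hempty, ?_⟩
  · intro h
    have := a.injective (c_inj h)
    exact absurd this (by decide)
  · rw [hempty]; simp

end

end Pool.Agent.Results.MP_5b0acc_co.TwistedDisproof
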